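import Mathlib

/-! Rescaled copies of balls of a net inside the net. -/

set_option autoImplicit false

namespace Pool.Agent.V11102.Net

variable {X : Type*} [NormedAddCommGroup X] [NormedSpace ℝ X]

/-- the cutoff -/
noncomputable def cut (r t : ℝ) : ℝ := max 0 (min 1 (2 - t / r))

theorem cut_nonneg (r t : ℝ) : 0 ≤ cut r t := le_max_left _ _

theorem cut_le_one (r t : ℝ) : cut r t ≤ 1 := max_le zero_le_one (min_le_left _ _)

theorem cut_eq_one {r t : ℝ} (hr : 0 < r) (h : t ≤ r) : cut r t = 1 := by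
  unfold cut
  have h1 : t / r ≤ 1 := (div_le_one hr).mpr h
  rw [min_eq_left (by linarith), max_eq_right zero_le_one]

theorem cut_eq_zero {r t : ℝ} (hr : 0 < r) (h : 2 * r ≤ t) : cut r t = 0 := by
  unfold cut
  have h1 : 2 ≤ t / r := (le_div_iff₀ hr).mpr h
  rw [min_eq_right (by linarith), max_eq_left (by linarith)]

theorem cut_lip {r : ℝ} (hr : 0 < r) (s t : ℝ) : |cut r s - cut r t| * r ≤ |s - t| := by
  have h1 : |cut r s - cut r t| ≤ |s - t| / r := by
    unfold cut
    refine (abs_max_sub_max_le_max _ _ _ _).trans ?_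
    rw [sub_self, abs_zero, max_eq_right (abs_nonneg _)]
    refine (abs_min_sub_min_le_max _ _ _ _).trans ?_
    rw [sub_self, abs_zero, max_eq_right (abs_nonneg _)]
    have h2 : 2 - s / r - (2 - t / r) = (t - s) / r := by ring
    rw [h2, abs_div, abs_of_pos hr, abs_sub_comm]
  rwa [le_div_iff₀ hr] at h1

/-- a Lipschitz map onto the ball -/
noncomputable def ret (r : ℝ) (v : X) : X := cut r ‖v‖ • v

theorem ret_eq {r : ℝ} (hr : 0 < r) {v : X} (h : ‖v‖ ≤ r) : ret r v = v := by
  unfold ret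
  rw [cut_eq_one hr h, one_smul]

theorem norm_ret_le {r : ℝ} (hr : 0 < r) (v : X) : ‖ret r v‖ ≤ r := by
  unfold ret
  rw [norm_smul, Real.norm_eq_abs, abs_of_nonneg (cut_nonneg _ _)]
  have hv := norm_nonneg v
  rcases le_total ‖v‖ r with h | h
  · exact (mul_le_of_le_one_left hv (cut_le_one _ _)).trans h
  · unfold cut
    rcases le_total (2 * r) ‖v‖ with h2 | h2
    · have h3 : 2 ≤ ‖v‖ / r := (le_div_iff₀ hr).mpr h2
      rw [min_eq_right (by linarith), max_eq_left (by linarith), zero_mul]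
      exact hr.le
    · have h3 : ‖v‖ / r ≤ 2 := (div_le_iff₀ hr).mpr h2
      have h4 : 1 ≤ ‖v‖ / r := (one_le_div hr).mpr h
      rw [min_eq_right (by linarith), max_eq_right (by linarith)]
      have h5 : (2 - ‖v‖ / r) * ‖v‖ = r - r * (‖v‖ / r - 1) ^ 2 := by
        field_simp
        ring
      rw [h5]
      have := mul_nonneg hr.le (sq_nonneg (‖v‖ / r - 1))
      linarith

theorem ret_lip {r : ℝ} (hr : 0 < r) (v w : X) : ‖ret r v - ret r w‖ ≤ 3 * ‖v - w‖ := by
  have key : ∀ v w : X, ‖w‖ ≤ 2 * r → ‖ret r v - ret r w‖ ≤ 3 * ‖v - w‖ := by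
    intro v w hw
    have h1 : ret r v - ret r w = cut r ‖v‖ • (v - w) + (cut r ‖v‖ - cut r ‖w‖) • w := by
      unfold ret
      rw [smul_sub, sub_smul]; abel
    rw [h1]
    refine (norm_add_le _ _).trans ?_
    rw [norm_smul, norm_smul, Real.norm_eq_abs, Real.norm_eq_abs,
      abs_of_nonneg (cut_nonneg r ‖v‖)]
    have h2 : cut r ‖v‖ * ‖v - w‖ ≤ ‖v - w‖ :=
      mul_le_of_le_one_left (norm_nonneg _) (cut_le_one _ _)
    have h3 : |cut r ‖v‖ - cut r ‖w‖| * ‖w‖ ≤ |cut r ‖v‖ - cut r ‖w‖| * (2 * r) :=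
      mul_le_mul_of_nonneg_left hw (abs_nonneg _)
    have h4 := (cut_lip hr ‖v‖ ‖w‖).trans (abs_norm_sub_norm_le v w)
    linarith
  rcases le_total ‖w‖ (2 * r) with h | h
  · exact key v w h
  · rcases le_total ‖v‖ (2 * r) with h' | h'
    · rw [norm_sub_rev, norm_sub_rev v w]
      exact key w v h'
    · unfold ret
      rw [cut_eq_zero hr h, cut_eq_zero hr h', zero_smul, zero_smul, sub_zero, norm_zero]
      positivity

theorem geom [Nontrivial X] {N : Set X} {ε δ : ℝ} (hε : 0 < ε) (hδ : 0 < δ)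
    (hsep : ∀ x ∈ N, ∀ y ∈ N, x ≠ y → ε ≤ dist x y) (hden : ∀ x : X, ∃ y ∈ N, dist x y < δ)
    (o : N) : ∃ L : ℝ, 0 ≤ L ∧ ∀ r, δ ≤ r → ∀ T, 0 ≤ T → ∃ (φ ψ : N → N) (χ : N → ℝ) (T' : ℝ),
      T ≤ T' ∧ (∀ x y, dist (φ x) (φ y) ≤ L * dist x y) ∧
      (∀ x y, dist (ψ x) (ψ y) ≤ L * dist x y) ∧ (∀ y, dist (ψ y) o ≤ r) ∧
      (∀ m, dist m o ≤ r → ψ (φ m) = m ∧ χ (φ m) = 1) ∧ (∀ y, |χ y| ≤ 1) ∧
      (∀ y y', |χ y - χ y'| * r ≤ dist y y') ∧ (∀ y, χ y ≠ 0 → T < dist y o ∧ dist y o ≤ T') := by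
  classical
  set lam : ℝ := 2 * δ / ε + 1 with hlam
  have hlam1 : 1 ≤ lam := by
    have : 0 ≤ 2 * δ / ε := by positivity
    linarith
  have hlam0 : 0 < lam := by linarith
  have hde : 0 ≤ δ / ε := by positivity
  -- small errors are absorbed
  have habs : ∀ (x y : N), x ≠ y → δ ≤ δ / ε * dist x y := by
    intro x y hxy
    have h1 : ε ≤ dist (x : X) y := hsep x x.2 y y.2 (fun h => hxy (Subtype.ext h))
    have h2 : δ = δ / ε * ε := by field_simp
    calc δ = δ / ε * ε := h2
      _ ≤ δ / ε * dist x y := mul_le_mul_of_nonneg_left h1 hde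
  refine ⟨lam + 6 * (δ / ε) + 3, by positivity, fun r hr T hT => ?_⟩
  have hr0 : 0 < r := lt_of_lt_of_le hδ hr
  set ρ : ℝ := lam * r + δ with hρ
  have hρ0 : 0 < ρ := by positivity
  have hrρ : r ≤ ρ := by nlinarith
  -- the centre
  obtain ⟨u, hu⟩ := exists_norm_eq X (show 0 ≤ T + 2 * ρ + 1 by positivity)
  set c : X := o + u with hc
  have hco : dist c (o : X) = T + 2 * ρ + 1 := by
    rw [hc, dist_eq_norm, add_sub_cancel_left, hu]
  -- the map `φ`
  have hφex : ∀ m : N, ∃ y : N, dist (c + lam • ((m : X) - o)) (y : X) < δ := by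
    intro m
    obtain ⟨y, hy, hd⟩ := hden (c + lam • ((m : X) - o))
    exact ⟨⟨y, hy⟩, hd⟩
  choose φ hφ using hφex
  have hφlip : ∀ x y, dist (φ x) (φ y) ≤ (lam + 2 * (δ / ε)) * dist x y := by
    intro x y
    rcases eq_or_ne x y with rfl | hxy
    · rw [dist_self, dist_self, mul_zero]
    have h1 : dist (φ x : X) (φ y : X) ≤ dist (φ x : X) (c + lam • ((x : X) - o)) +
        dist (c + lam • ((x : X) - o)) (c + lam • ((y : X) - o)) +
        dist (c + lam • ((y : X) - o)) (φ y : X) := dist_triangle4 _ _ _ _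
    have h2 : dist (c + lam • ((x : X) - o)) (c + lam • ((y : X) - o)) =
        lam * dist (x : X) y := by
      rw [dist_eq_norm, dist_eq_norm]
      have : c + lam • ((x : X) - o) - (c + lam • ((y : X) - o)) = lam • ((x : X) - y) := by
        rw [← sub_sub_sub_cancel_right (x : X) (y : X) (o : X), smul_sub lam ((x : X) - o)]
        abel
      rw [this, norm_smul, Real.norm_eq_abs, abs_of_pos hlam0]
    have h3 := hφ x
    have h4 := hφ y
    rw [dist_comm] at h3
    have h5 := habs x y hxy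
    have h6 : dist (φ x) (φ y) = dist (φ x : X) (φ y : X) := rfl
    have h7 : dist x y = dist (x : X) y := rfl
    rw [h6]
    rw [← h7] at h2
    linarith
  have hφinj : ∀ x y, φ x = φ y → x = y := by
    intro x y hxy
    by_contra hne
    have h1 : ε ≤ dist (x : X) y := hsep x x.2 y y.2 (fun h => hne (Subtype.ext h))
    have h2 : dist (c + lam • ((x : X) - o)) (c + lam • ((y : X) - o)) =
        lam * dist (x : X) y := by
      rw [dist_eq_norm, dist_eq_norm]
      have : c + lam • ((x : X) - o) - (c + lam • ((y : X) - o)) = lam • ((x : X) - y) := by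
        rw [← sub_sub_sub_cancel_right (x : X) (y : X) (o : X), smul_sub lam ((x : X) - o)]
        abel
      rw [this, norm_smul, Real.norm_eq_abs, abs_of_pos hlam0]
    have h3 := hφ x
    have h4 := hφ y
    rw [← hxy, dist_comm] at h4
    have h5 := dist_triangle (c + lam • ((x : X) - o)) (φ x : X) (c + lam • ((y : X) - o))
    rw [h2] at h5
    have h6 : lam * ε ≤ lam * dist (x : X) y := mul_le_mul_of_nonneg_left h1 hlam0.le
    have h7 : lam * ε = 2 * δ + ε := by rw [hlam]; field_simp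
    linarith
  have hφball : ∀ m : N, dist m o ≤ r → dist (φ m : X) c ≤ ρ := by
    intro m hm
    have h1 := hφ m
    have h2 := dist_triangle (φ m : X) (c + lam • ((m : X) - o)) c
    have h3 : dist (c + lam • ((m : X) - o)) c = lam * dist (m : X) o := by
      rw [dist_eq_norm, add_sub_cancel_left, norm_smul, Real.norm_eq_abs, abs_of_pos hlam0,
        dist_eq_norm]
    rw [dist_comm] at h1
    have h4 : lam * dist (m : X) o ≤ lam * r := mul_le_mul_of_nonneg_left hm hlam0.le
    rw [h3] at h2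
    linarith
  -- the map `ψ`
  let t : N → X := fun y => o + ret r (lam⁻¹ • ((y : X) - c))
  have hψex : ∀ y : N, ∃ m : N, dist m o ≤ r ∧ dist (m : X) (t y) ≤ 3 * δ ∧
      (∀ m', dist m' o ≤ r → φ m' = y → m = m') := by
    intro y
    by_cases hex : ∃ m, dist m o ≤ r ∧ φ m = y
    · obtain ⟨m, hm, rfl⟩ := hex
      refine ⟨m, hm, ?_, fun m' _ h => (hφinj _ _ h).symm⟩
      have h1 : ret r ((m : X) - o) = (m : X) - o := ret_eq hr0 (by rw [← dist_eq_norm]; exact hm)
      have h2 : (m : X) - t (φ m) = ret r ((m : X) - o) - ret r (lam⁻¹ • ((φ m : X) - c)) := by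
        rw [h1]
        show (m : X) - (o + ret r (lam⁻¹ • ((φ m : X) - c))) = _
        abel
      rw [dist_eq_norm, h2]
      refine (ret_lip hr0 _ _).trans ?_
      have h3 : (m : X) - o - lam⁻¹ • ((φ m : X) - c) =
          lam⁻¹ • (c + lam • ((m : X) - o) - φ m) := by
        have e : c + lam • ((m : X) - o) - φ m = lam • ((m : X) - o) - ((φ m : X) - c) := by abel
        rw [e, smul_sub lam⁻¹ (lam • ((m : X) - o)), smul_smul, inv_mul_cancel₀ hlam0.ne', one_smul]
      rw [h3, norm_smul, ← dist_eq_norm, norm_inv, Real.norm_eq_abs, abs_of_pos hlam0]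
      have h4 := hφ m
      have h5 : lam⁻¹ ≤ 1 := inv_le_one_of_one_le₀ hlam1
      have h6 : lam⁻¹ * dist (c + lam • ((m : X) - o)) (φ m) ≤ 1 * δ :=
        mul_le_mul h5 h4.le dist_nonneg zero_le_one
      linarith
    · -- a point of the net near the target
      set v : X := ret r (lam⁻¹ • ((y : X) - c)) with hv
      have hvr : ‖v‖ ≤ r := norm_ret_le hr0 _
      obtain ⟨m, hm, hmd⟩ := hden (o + (1 - δ / r) • v)
      have hdr : δ / r ≤ 1 := (div_le_one hr0).mpr hr
      have hdr0 : 0 ≤ δ / r := by positivity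
      have h1 : dist (o + (1 - δ / r) • v) (o : X) ≤ r - δ := by
        rw [dist_eq_norm, add_sub_cancel_left, norm_smul, Real.norm_eq_abs,
          abs_of_nonneg (by linarith)]
        have h2 : (1 - δ / r) * ‖v‖ ≤ (1 - δ / r) * r :=
          mul_le_mul_of_nonneg_left hvr (by linarith)
        have h3 : (1 - δ / r) * r = r - δ := by field_simp
        linarith
      have h2 : dist (o + (1 - δ / r) • v) (o + v) ≤ δ := by
        rw [dist_eq_norm]
        have h3 : o + (1 - δ / r) • v - (o + v) = -((δ / r) • v) := by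
          rw [sub_smul, one_smul]; abel
        rw [h3, norm_neg, norm_smul, Real.norm_eq_abs, abs_of_nonneg hdr0]
        have h4 : δ / r * ‖v‖ ≤ δ / r * r := mul_le_mul_of_nonneg_left hvr hdr0
        have h5 : δ / r * r = δ := by field_simp
        linarith
      refine ⟨⟨m, hm⟩, ?_, ?_, fun m' h3 h4 => absurd ⟨m', h3, h4⟩ hex⟩
      · have h3 := dist_triangle m (o + (1 - δ / r) • v) (o : X)
        rw [dist_comm] at hmd
        show dist m (o : X) ≤ r
        linarith
      · have h3 := dist_triangle m (o + (1 - δ / r) • v) ((o : X) + v)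
        rw [dist_comm] at hmd
        show dist m ((o : X) + v) ≤ 3 * δ
        linarith
  choose ψ hψ1 hψ2 hψ3 using hψex
  have htlip : ∀ x y : N, dist (t x) (t y) ≤ 3 * dist x y := by
    intro x y
    have h1 : dist (t x) (t y) = ‖ret r (lam⁻¹ • ((x : X) - c)) - ret r (lam⁻¹ • ((y : X) - c))‖ := by
      rw [dist_eq_norm]
      show ‖((o : X) + ret r (lam⁻¹ • ((x : X) - c))) -
        ((o : X) + ret r (lam⁻¹ • ((y : X) - c)))‖ = _
      rw [add_sub_add_left_eq_sub]
    rw [h1]
    refine (ret_lip hr0 _ _).trans ?_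
    have h2 : lam⁻¹ • ((x : X) - c) - lam⁻¹ • ((y : X) - c) = lam⁻¹ • ((x : X) - y) := by
      rw [← smul_sub, sub_sub_sub_cancel_right]
    rw [h2, norm_smul, norm_inv, Real.norm_eq_abs, abs_of_pos hlam0]
    have h5 : lam⁻¹ ≤ 1 := inv_le_one_of_one_le₀ hlam1
    have h6 : lam⁻¹ * ‖(x : X) - y‖ ≤ 1 * ‖(x : X) - y‖ :=
      mul_le_mul_of_nonneg_right h5 (norm_nonneg _)
    have h7 : dist x y = ‖(x : X) - y‖ := dist_eq_norm _ _
    rw [h7]
    linarith
  have hψlip : ∀ x y, dist (ψ x) (ψ y) ≤ (6 * (δ / ε) + 3) * dist x y := by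
    intro x y
    rcases eq_or_ne x y with rfl | hxy
    · rw [dist_self, dist_self, mul_zero]
    have h1 : dist (ψ x : X) (ψ y : X) ≤ dist (ψ x : X) (t x) + dist (t x) (t y) +
        dist (t y) (ψ y : X) := dist_triangle4 _ _ _ _
    have h2 := hψ2 x
    have h3 := hψ2 y
    rw [dist_comm] at h3
    have h4 := htlip x y
    have h5 := habs x y hxy
    have h6 : dist (ψ x) (ψ y) = dist (ψ x : X) (ψ y : X) := rfl
    rw [h6]
    linarith
  refine ⟨φ, ψ, fun y => cut ρ (dist (y : X) c), T + 4 * ρ + 1, by linarith, ?_, ?_, hψ1, ?_, ?_,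
    ?_, ?_⟩
  · intro x y
    refine (hφlip x y).trans ?_
    apply mul_le_mul_of_nonneg_right _ dist_nonneg
    linarith
  · intro x y
    refine (hψlip x y).trans ?_
    apply mul_le_mul_of_nonneg_right _ dist_nonneg
    linarith
  · intro m hm
    exact ⟨hψ3 (φ m) m hm rfl, cut_eq_one hρ0 (hφball m hm)⟩
  · intro y
    rw [abs_of_nonneg (cut_nonneg _ _)]
    exact cut_le_one _ _
  · intro y y'
    have h1 : |cut ρ (dist (y : X) c) - cut ρ (dist (y' : X) c)| * r ≤
        |cut ρ (dist (y : X) c) - cut ρ (dist (y' : X) c)| * ρ :=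
      mul_le_mul_of_nonneg_left hrρ (abs_nonneg _)
    refine h1.trans ((cut_lip hρ0 _ _).trans ?_)
    exact abs_dist_sub_le _ _ _
  · intro y hy
    have h1 : dist (y : X) c < 2 * ρ := by
      by_contra h
      push Not at h
      exact hy (cut_eq_zero hρ0 h)
    have h2 := dist_triangle c (y : X) (o : X)
    have h3 := dist_triangle (y : X) c (o : X)
    rw [hco] at h2 h3
    rw [dist_comm c (y : X)] at h2
    have h4 : dist y o = dist (y : X) o := rfl
    rw [h4]
    constructor <;> linarith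

end Pool.Agent.V11102.Net
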