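import Mathlib

/-! The decomposition argument of Pełczyński for `ℓ∞`-sums. -/

set_option autoImplicit false
set_option linter.unusedSectionVars false

namespace Pool.Agent.V11102.Net

open scoped ENNReal

variable {A : Type*} [NormedAddCommGroup A] [NormedSpace ℝ A]

/-- bounded sequences in `A` -/
abbrev LI (A : Type*) [NormedAddCommGroup A] : Type _ := lp (fun _ : ℕ => A) ∞

theorem coord_le (x : LI A) (i : ℕ) : ‖x i‖ ≤ ‖x‖ := lp.norm_apply_le_norm ENNReal.top_ne_zero x i

/-- constructor -/
def mkLI (f : ℕ → A) (C : ℝ) (h : ∀ i, ‖f i‖ ≤ C) : LI A :=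
  ⟨f, memℓp_infty ⟨C, by rintro _ ⟨i, rfl⟩; exact h i⟩⟩

theorem mkLI_apply (f : ℕ → A) (C : ℝ) (h : ∀ i, ‖f i‖ ≤ C) (i : ℕ) : mkLI f C h i = f i := rfl

theorem norm_mkLI_le (f : ℕ → A) {C : ℝ} (hC : 0 ≤ C) (h : ∀ i, ‖f i‖ ≤ C) :
    ‖mkLI f C h‖ ≤ C := lp.norm_le_of_forall_le hC h

/-- the shifted sequence -/
def shf (P K : A →L[ℝ] A) (u : A) (x : ℕ → A) : ℕ → A
  | 0 => P (x 0) + K u
  | i + 1 => P (x (i + 1)) + K (x i)

theorem shf_bound (P K : A →L[ℝ] A) (u : A) (x : ℕ → A) {C : ℝ} (hu : ‖u‖ ≤ C)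
    (hx : ∀ i, ‖x i‖ ≤ C) (i : ℕ) : ‖shf P K u x i‖ ≤ (‖P‖ + ‖K‖) * C := by
  rw [add_mul]
  cases i with
  | zero =>
    exact (norm_add_le _ _).trans (add_le_add
      ((P.le_opNorm _).trans (mul_le_mul_of_nonneg_left (hx 0) (norm_nonneg _)))
      ((K.le_opNorm _).trans (mul_le_mul_of_nonneg_left hu (norm_nonneg _))))
  | succ i =>
    exact (norm_add_le _ _).trans (add_le_add
      ((P.le_opNorm _).trans (mul_le_mul_of_nonneg_left (hx (i + 1)) (norm_nonneg _)))
      ((K.le_opNorm _).trans (mul_le_mul_of_nonneg_left (hx i) (norm_nonneg _))))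

theorem shf_add (P K : A →L[ℝ] A) (u v : A) (x y : ℕ → A) (i : ℕ) :
    shf P K (u + v) (fun i => x i + y i) i = shf P K u x i + shf P K v y i := by
  cases i with
  | zero => simp only [shf, map_add]; abel
  | succ i => simp only [shf, map_add]; abel

theorem shf_smul (P K : A →L[ℝ] A) (c : ℝ) (u : A) (x : ℕ → A) (i : ℕ) :
    shf P K (c • u) (fun i => c • x i) i = c • shf P K u x i := by
  cases i with
  | zero => simp only [shf, map_smul, smul_add]
  | succ i => simp only [shf, map_smul, smul_add]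

theorem main (S : LI A →L[ℝ] A) (R : A →L[ℝ] LI A) (h : ∀ x, R (S x) = x) :
    Nonempty (A ≃L[ℝ] LI A) := by
  let P : A →L[ℝ] A := S.comp R
  let K : A →L[ℝ] A := ContinuousLinearMap.id ℝ A - P
  have hP : ∀ a, P a = S (R a) := fun a => rfl
  have hK : ∀ a, K a = a - S (R a) := fun a => rfl
  have hPP : ∀ a, P (P a) = P a := fun a => by rw [hP, hP, h]
  have hPK : ∀ a, P (K a) = 0 := fun a => by rw [hK, map_sub, ← hP, hPP, sub_self]
  have hKP : ∀ a, K (P a) = 0 := fun a => by
    rw [hK, hP, h, sub_self]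
  have hKK : ∀ a, K (K a) = K a := fun a => by
    have h1 : K (K a) = K a - P (K a) := rfl
    rw [h1, hPK, sub_zero]
  have hPaK : ∀ a, P a + K a = a := fun a => by rw [hP, hK]; abel
  have hRK : ∀ a, R (K a) = 0 := fun a => by rw [hK, map_sub, h, sub_self]
  have hKS : ∀ x, K (S x) = 0 := fun x => by rw [hK, h, sub_self]
  -- forward map
  have hC0 : 0 ≤ (‖P‖ + ‖K‖) * (1 + ‖R‖) := by positivity
  have hbd : ∀ a : A, ∀ i, ‖shf P K a (fun i => R a i) i‖ ≤
      (‖P‖ + ‖K‖) * (1 + ‖R‖) * ‖a‖ := by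
    intro a i
    rw [mul_assoc]
    apply shf_bound
    · have := norm_nonneg R
      have := norm_nonneg a
      nlinarith
    · intro j
      refine (coord_le _ _).trans ((R.le_opNorm a).trans ?_)
      have := norm_nonneg a
      nlinarith
  let F : A →L[ℝ] LI A := LinearMap.mkContinuous
    { toFun := fun a => mkLI (shf P K a (fun i => R a i)) _ (hbd a)
      map_add' := fun a b => by
        ext i
        show shf P K (a + b) (fun i => R (a + b) i) i =
          shf P K a (fun i => R a i) i + shf P K b (fun i => R b i) i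
        have h1 : (fun i => R (a + b) i) = fun i => R a i + R b i := by
          funext i
          rw [map_add]; rfl
        rw [h1, shf_add]
      map_smul' := fun c a => by
        ext i
        show shf P K (c • a) (fun i => R (c • a) i) i = c • shf P K a (fun i => R a i) i
        have h1 : (fun i => R (c • a) i) = fun i => c • R a i := by
          funext i
          rw [map_smul]; rfl
        rw [h1, shf_smul] }
    ((‖P‖ + ‖K‖) * (1 + ‖R‖)) (fun a => norm_mkLI_le _ (by positivity) (hbd a))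
  have hF : ∀ a i, F a i = shf P K a (fun i => R a i) i := fun a i => rfl
  -- backward map
  have hbd2 : ∀ (x : LI A) (i : ℕ), ‖P (x i) + K (x (i + 1))‖ ≤ (‖P‖ + ‖K‖) * ‖x‖ := by
    intro x i
    rw [add_mul]
    exact (norm_add_le _ _).trans (add_le_add
      ((P.le_opNorm _).trans (mul_le_mul_of_nonneg_left (coord_le x i) (norm_nonneg _)))
      ((K.le_opNorm _).trans (mul_le_mul_of_nonneg_left (coord_le x (i + 1)) (norm_nonneg _))))
  let Q : LI A →L[ℝ] LI A := LinearMap.mkContinuous
    { toFun := fun x => mkLI (fun i => P (x i) + K (x (i + 1))) _ (hbd2 x)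
      map_add' := fun x y => by
        ext i
        show P (x i + y i) + K (x (i + 1) + y (i + 1)) =
          (P (x i) + K (x (i + 1))) + (P (y i) + K (y (i + 1)))
        rw [map_add, map_add]; abel
      map_smul' := fun c x => by
        ext i
        show P (c • x i) + K (c • x (i + 1)) = c • (P (x i) + K (x (i + 1)))
        rw [map_smul, map_smul, smul_add] }
    (‖P‖ + ‖K‖) (fun x => norm_mkLI_le _ (by positivity) (hbd2 x))
  have hQ : ∀ (x : LI A) i, Q x i = P (x i) + K (x (i + 1)) := fun x i => rfl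
  let ev0 : LI A →L[ℝ] A := LinearMap.mkContinuous
    { toFun := fun x => x 0
      map_add' := fun _ _ => rfl
      map_smul' := fun _ _ => rfl } 1 (fun x => by
        rw [one_mul]; exact coord_le x 0)
  have hev : ∀ x : LI A, ev0 x = x 0 := fun x => rfl
  let G : LI A →L[ℝ] A := S.comp Q + K.comp ev0
  have hG : ∀ x, G x = S (Q x) + K (x 0) := fun x => rfl
  have h1 : ∀ a, G (F a) = a := by
    intro a
    have e1 : Q (F a) = R a := by
      ext i
      rw [hQ, hF, hF]
      cases i with
      | zero =>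
        show P (P (R a 0) + K a) + K (P (R a (0 + 1)) + K (R a 0)) = R a 0
        rw [map_add, map_add, hPP, hPK, hKP, hKK, add_zero, zero_add, hPaK]
      | succ i =>
        show P (P (R a (i + 1)) + K (R a i)) + K (P (R a (i + 1 + 1)) + K (R a (i + 1))) =
          R a (i + 1)
        rw [map_add, map_add, hPP, hPK, hKP, hKK, add_zero, zero_add, hPaK]
    rw [hG, e1, hF]
    show S (R a) + K (P (R a 0) + K a) = a
    rw [map_add, hKP, hKK, zero_add, ← hP, hPaK]
  have h2 : ∀ x, F (G x) = x := by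
    intro x
    have e1 : R (G x) = Q x := by rw [hG, map_add, h, hRK, add_zero]
    have e2 : K (G x) = K (x 0) := by rw [hG, map_add, hKS, hKK, zero_add]
    ext i
    rw [hF]
    cases i with
    | zero =>
      show P (R (G x) 0) + K (G x) = x 0
      rw [e1, e2, hQ, map_add, hPP, hPK, add_zero, hPaK]
    | succ i =>
      show P (R (G x) (i + 1)) + K (R (G x) i) = x (i + 1)
      rw [e1, hQ, hQ, map_add, map_add, hPP, hPK, hKP, hKK, add_zero, zero_add, hPaK]
  exact ⟨ContinuousLinearEquiv.equivOfInverse F G h1 h2⟩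

end Pool.Agent.V11102.Net
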